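import Pool.Agent.Y804.TV.Defs

/-!
Closed subgroups of `GL_n` over a non-archimedean local field.
-/

set_option autoImplicit false

namespace Pool.Agent.Y804.TV

open Finset Function

variable {F : Type*} [NontriviallyNormedField F] [IsUltrametricDist F] {n : ℕ}

/-- The entries of `a` have norm at most `r`. -/
def Bd (r : ℝ) (a : Matrix (Fin n) (Fin n) F) : Prop := ∀ i j, ‖a i j‖ ≤ r

theorem Bd.add {r : ℝ} {a b : Matrix (Fin n) (Fin n) F} (ha : Bd r a) (hb : Bd r b) :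
    Bd r (a + b) := fun i j =>
  (IsUltrametricDist.norm_add_le_max _ _).trans (max_le (ha i j) (hb i j))

theorem Bd.mul {r s : ℝ} (hr : 0 ≤ r) (hs : 0 ≤ s) {a b : Matrix (Fin n) (Fin n) F} (ha : Bd r a)
    (hb : Bd s b) : Bd (r * s) (a * b) := by
  intro i j
  rw [Matrix.mul_apply]
  refine IsUltrametricDist.norm_sum_le_of_forall_le_of_nonneg (mul_nonneg hr hs) fun l _ => ?_
  rw [norm_mul]
  exact mul_le_mul (ha i l) (hb l j) (norm_nonneg _) hr

omit [IsUltrametricDist F] in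
theorem Bd.mono {r s : ℝ} (h : r ≤ s) {a : Matrix (Fin n) (Fin n) F} (ha : Bd r a) : Bd s a :=
  fun i j => (ha i j).trans h

omit [IsUltrametricDist F] in
theorem Bd.one : Bd (F := F) (n := n) 1 1 := by
  intro i j
  rw [Matrix.one_apply]
  split_ifs <;> simp

omit [IsUltrametricDist F] in
theorem Bd.zero {r : ℝ} (hr : 0 ≤ r) : Bd (F := F) (n := n) r 0 := by
  intro i j
  simpa using hr

theorem Bd.natCast (m : ℕ) : Bd (F := F) (n := n) 1 (m : Matrix (Fin n) (Fin n) F) := by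
  induction m with
  | zero => rw [Nat.cast_zero]; exact Bd.zero zero_le_one
  | succ m ih => rw [Nat.cast_succ]; exact ih.add Bd.one

/-- The matrices congruent to `1` modulo elements of norm at most `r`. -/
def congr (F : Type*) [NontriviallyNormedField F] [IsUltrametricDist F] (n : ℕ) (r : ℝ)
    (hr0 : 0 ≤ r) (hr : r ≤ 1) : Submonoid (Matrix (Fin n) (Fin n) F) where
  carrier := {a | Bd r (a - 1)}
  one_mem' := by
    change Bd r (1 - 1)
    rw [sub_self]
    exact Bd.zero hr0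
  mul_mem' {a b} ha hb := by
    change Bd r (a * b - 1)
    have h : a * b - 1 = (a - 1) * (b - 1) + (a - 1) + (b - 1) := by
      rw [sub_mul, mul_sub]; simp only [mul_one, one_mul]; abel
    rw [h]
    exact (((Bd.mul hr0 hr0 ha hb).mono (by nlinarith)).add ha).add hb

theorem mem_congr {r : ℝ} {hr0 : 0 ≤ r} {hr : r ≤ 1} {a : Matrix (Fin n) (Fin n) F} :
    a ∈ congr F n r hr0 hr ↔ Bd r (a - 1) := Iff.rfl

theorem congr_eq {r : ℝ} (hr0 : 0 ≤ r) (hr : r ≤ 1) :
    (congr F n r hr0 hr : Set (Matrix (Fin n) (Fin n) F)) =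
      (Set.pi Set.univ fun i => Set.pi Set.univ fun j =>
        Metric.closedBall (if i = j then (1 : F) else 0) r : Set (Fin n → Fin n → F)) := by
  refine Set.ext fun a => ⟨fun h i _ j _ => ?_, fun h i j => ?_⟩
  · have := h i j
    rw [Matrix.sub_apply, Matrix.one_apply] at this
    rw [Metric.mem_closedBall, dist_eq_norm]
    exact this
  · have := h i trivial j trivial
    rw [Metric.mem_closedBall, dist_eq_norm] at this
    rw [Matrix.sub_apply, Matrix.one_apply]
    exact this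

theorem isCompact_congr [ProperSpace F] {r : ℝ} (hr0 : 0 ≤ r) (hr : r ≤ 1) :
    IsCompact (congr F n r hr0 hr : Set (Matrix (Fin n) (Fin n) F)) := by
  rw [congr_eq]
  exact isCompact_univ_pi fun i => isCompact_univ_pi fun j => isCompact_closedBall _ _

theorem isOpen_congr {r : ℝ} (hr0 : 0 < r) (hr : r ≤ 1) :
    IsOpen (congr F n r hr0.le hr : Set (Matrix (Fin n) (Fin n) F)) := by
  rw [congr_eq]
  exact isOpen_set_pi Set.finite_univ fun i _ => isOpen_set_pi Set.finite_univ fun j _ =>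
    IsUltrametricDist.isOpen_closedBall _ hr0.ne'

/-- The congruence subgroup. -/
def Kr (F : Type*) [NontriviallyNormedField F] [IsUltrametricDist F] (n : ℕ) (r : ℝ)
    (hr0 : 0 ≤ r) (hr : r ≤ 1) : Subgroup (GL (Fin n) F) :=
  (congr F n r hr0 hr).units

theorem mem_Kr {r : ℝ} {hr0 : 0 ≤ r} {hr : r ≤ 1} {g : GL (Fin n) F} :
    g ∈ Kr F n r hr0 hr ↔ Bd r ((g : Matrix (Fin n) (Fin n) F) - 1) ∧
      Bd r (((g⁻¹ : GL (Fin n) F) : Matrix (Fin n) (Fin n) F) - 1) := Iff.rfl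

theorem isCompact_Kr [ProperSpace F] {r : ℝ} (hr0 : 0 ≤ r) (hr : r ≤ 1) :
    IsCompact (Kr F n r hr0 hr : Set (GL (Fin n) F)) :=
  Submonoid.units_isCompact (isCompact_congr hr0 hr)

theorem isOpen_Kr {r : ℝ} (hr0 : 0 < r) (hr : r ≤ 1) :
    IsOpen (Kr F n r hr0.le hr : Set (GL (Fin n) F)) := by
  have h : (Kr F n r hr0.le hr : Set (GL (Fin n) F)) =
      (fun g : GL (Fin n) F => (g : Matrix (Fin n) (Fin n) F)) ⁻¹' (congr F n r hr0.le hr) ∩
      (fun g : GL (Fin n) F => ((g⁻¹ : GL (Fin n) F) : Matrix (Fin n) (Fin n) F)) ⁻¹'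
        (congr F n r hr0.le hr) := rfl
  rw [h]
  exact ((isOpen_congr hr0 hr).preimage Units.continuous_val).inter
    ((isOpen_congr hr0 hr).preimage (Units.continuous_val.comp continuous_inv))

theorem Bd_of_mem {r : ℝ} {hr0 : 0 ≤ r} {hr : r ≤ 1} {g : GL (Fin n) F}
    (hg : g ∈ Kr F n r hr0 hr) : Bd 1 (g : Matrix (Fin n) (Fin n) F) := by
  have h := ((mem_Kr.1 hg).1.mono hr).add Bd.one
  rwa [sub_add_cancel] at h

theorem conj_mem {r s : ℝ} {hr0 : 0 ≤ r} {hr : r ≤ 1} {hs0 : 0 ≤ s} {hs : s ≤ 1}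
    {g x : GL (Fin n) F} (hg : g ∈ Kr F n r hr0 hr) (hx : x ∈ Kr F n s hs0 hs) :
    g * x * g⁻¹ ∈ Kr F n s hs0 hs := by
  have h1 : Bd 1 (g : Matrix (Fin n) (Fin n) F) := Bd_of_mem hg
  have h2 : Bd 1 ((g⁻¹ : GL (Fin n) F) : Matrix (Fin n) (Fin n) F) := Bd_of_mem (inv_mem hg)
  have key : ∀ y : GL (Fin n) F, Bd s ((y : Matrix (Fin n) (Fin n) F) - 1) →
      Bd s (((g * y * g⁻¹ : GL (Fin n) F) : Matrix (Fin n) (Fin n) F) - 1) := by
    intro y hy
    have h3 : ((g * y * g⁻¹ : GL (Fin n) F) : Matrix (Fin n) (Fin n) F) - 1 =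
        (g : Matrix (Fin n) (Fin n) F) * ((y : Matrix (Fin n) (Fin n) F) - 1) *
          ((g⁻¹ : GL (Fin n) F) : Matrix (Fin n) (Fin n) F) := by
      have h4 : (g : Matrix (Fin n) (Fin n) F) *
          ((g⁻¹ : GL (Fin n) F) : Matrix (Fin n) (Fin n) F) = 1 := by
        rw [← Units.val_mul, mul_inv_cancel, Units.val_one]
      rw [Units.val_mul, Units.val_mul, mul_sub, sub_mul, mul_one, h4]
    rw [h3]
    have h5 := (Bd.mul zero_le_one hs0 h1 hy).mul (by positivity) zero_le_one h2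
    simpa using h5
  rw [mem_Kr] at hx ⊢
  refine ⟨key x hx.1, ?_⟩
  have h6 : (g * x * g⁻¹)⁻¹ = g * x⁻¹ * g⁻¹ := by group
  rw [h6]
  exact key x⁻¹ hx.2

theorem one_add_pow {r : ℝ} (hr0 : 0 ≤ r) (hr : r ≤ 1) {a : Matrix (Fin n) (Fin n) F}
    (ha : Bd r a) (m : ℕ) :
    ∃ c : Matrix (Fin n) (Fin n) F, Bd 1 c ∧ (1 + a) ^ m = 1 + (m : Matrix (Fin n) (Fin n) F) * a +
      a * a * c := by
  induction m with
  | zero => exact ⟨0, Bd.zero zero_le_one, by simp⟩
  | succ m ih =>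
    obtain ⟨c, hc, h⟩ := ih
    refine ⟨(m : Matrix (Fin n) (Fin n) F) + c * (1 + a), ?_, ?_⟩
    · refine (Bd.natCast m).add ?_
      have := Bd.mul zero_le_one zero_le_one hc (Bd.one.add (ha.mono hr))
      simpa using this
    · rw [pow_succ, h, Nat.cast_succ]
      have hcomm : (m : Matrix (Fin n) (Fin n) F) * a = a * (m : Matrix (Fin n) (Fin n) F) :=
        (Nat.cast_commute m a).eq
      rw [hcomm]
      have e : ((m : Matrix (Fin n) (Fin n) F) + 1) * a = a * (m : Matrix (Fin n) (Fin n) F) + a := by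
        rw [add_mul, one_mul, hcomm]
      rw [e]
      have e2 : a * (m : Matrix (Fin n) (Fin n) F) * a = a * a * (m : Matrix (Fin n) (Fin n) F) := by
        rw [mul_assoc, hcomm, mul_assoc]
      have e3 : a * a * ((m : Matrix (Fin n) (Fin n) F) + c * (1 + a)) =
          a * (m : Matrix (Fin n) (Fin n) F) * a + a * a * c + a * a * c * a := by
        rw [e2]
        simp only [mul_add, mul_one, mul_assoc]
        abel
      rw [e3, mul_add, mul_one, add_mul, add_mul, one_mul]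
      abel

/-- If the `p`-th power of `1 + a` is close to `1`, so is `1 + a`. -/
theorem Bd_of_pow {p : ℕ} (hp : ‖(p : F)‖ = 1) {r s : ℝ} (hr0 : 0 ≤ r) (hr : r < 1) (hs : 0 ≤ s)
    {a : Matrix (Fin n) (Fin n) F} (ha : Bd r a) (h : Bd s ((1 + a) ^ p - 1)) : Bd s a := by
  classical
  by_contra hne
  unfold Bd at hne
  push Not at hne
  obtain ⟨i1, j1, hij⟩ := hne
  have : Nonempty (Fin n × Fin n) := ⟨(i1, j1)⟩
  obtain ⟨⟨i, j⟩, hmax⟩ := Finite.exists_max (fun x : Fin n × Fin n => ‖a x.1 x.2‖)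
  set t := ‖a i j‖ with ht
  have hst : s < t := hij.trans_le (hmax (i1, j1))
  have ht0 : 0 < t := hs.trans_lt hst
  have hat : Bd t a := fun i' j' => hmax (i', j')
  have ht1 : t < 1 := (ha i j).trans_lt hr
  obtain ⟨c, hc, hpow⟩ := one_add_pow hr0 hr.le ha p
  have h1 : (p : Matrix (Fin n) (Fin n) F) * a = ((1 + a) ^ p - 1) + -(a * a * c) := by
    rw [hpow]; abel
  have h2 : Bd (t * t) (-(a * a * c)) := by
    intro i' j'
    rw [Matrix.neg_apply, norm_neg]
    have := (hat.mul ht0.le ht0.le hat).mul (by positivity) zero_le_one hc i' j'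
    simpa using this
  have h3 : ‖((p : Matrix (Fin n) (Fin n) F) * a) i j‖ = t := by
    rw [← nsmul_eq_mul, Matrix.smul_apply, nsmul_eq_mul, norm_mul, hp, one_mul]
  have h4 : ‖((p : Matrix (Fin n) (Fin n) F) * a) i j‖ ≤ max s (t * t) := by
    rw [h1]
    exact (IsUltrametricDist.norm_add_le_max _ _).trans (max_le_max (h i j) (h2 i j))
  rw [h3] at h4
  rcases le_max_iff.1 h4 with h5 | h5
  · exact absurd h5 (not_le.2 hst)
  · nlinarith

theorem mem_Kr_of_pow {p : ℕ} (hp : ‖(p : F)‖ = 1) {r s : ℝ} {hr0 : 0 ≤ r} (hr : r < 1)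
    {hs0 : 0 ≤ s} {hs : s ≤ 1} {g : GL (Fin n) F} (hg : g ∈ Kr F n r hr0 hr.le)
    (h : g ^ p ∈ Kr F n s hs0 hs) : g ∈ Kr F n s hs0 hs := by
  rw [mem_Kr] at hg h ⊢
  constructor
  · refine Bd_of_pow hp hr0 hr hs0 hg.1 ?_
    rw [add_sub_cancel, ← Units.val_pow_eq_pow_val]
    exact h.1
  · refine Bd_of_pow hp hr0 hr hs0 hg.2 ?_
    rw [add_sub_cancel, ← Units.val_pow_eq_pow_val, inv_pow]
    exact h.2

/-- The congruence subgroups are a basis of neighbourhoods of `1`. -/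
theorem exists_Kr {O : Set (GL (Fin n) F)} (hO : IsOpen O) (h1 : 1 ∈ O) :
    ∃ (s : ℝ) (hs0 : 0 < s) (hs : s ≤ 1), (Kr F n s hs0.le hs : Set (GL (Fin n) F)) ⊆ O := by
  have h2 : O ∈ nhds (1 : GL (Fin n) F) := hO.mem_nhds h1
  rw [Units.isInducing_embedProduct.nhds_eq_comap, Filter.mem_comap] at h2
  obtain ⟨t, ht, htO⟩ := h2
  rw [map_one] at ht
  obtain ⟨u, hu, v, hv, huv⟩ := mem_nhds_prod_iff.1 ht
  have h3 : u ∩ MulOpposite.op ⁻¹' v ∈ nhds (1 : Matrix (Fin n) (Fin n) F) :=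
    Filter.inter_mem hu (MulOpposite.continuous_op.continuousAt hv)
  let _ : NormedAddCommGroup (Matrix (Fin n) (Fin n) F) := Matrix.normedAddCommGroup
  obtain ⟨ε, hε, hball⟩ := Metric.mem_nhds_iff.1 h3
  refine ⟨min (ε / 2) 1, lt_min (by positivity) one_pos, min_le_right _ _, ?_⟩
  have key : ∀ a : Matrix (Fin n) (Fin n) F, Bd (min (ε / 2) 1) (a - 1) →
      a ∈ u ∩ MulOpposite.op ⁻¹' v := by
    intro a ha
    refine hball ?_
    rw [Metric.mem_ball, dist_eq_norm]
    refine lt_of_le_of_lt ((Matrix.norm_le_iff (r := ε / 2) (by positivity)).2 fun i j => ?_)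
      (half_lt_self hε)
    exact (ha i j).trans (min_le_left _ _)
  intro g hg
  have hg' := mem_Kr.1 hg
  refine htO (huv ⟨(key _ hg'.1).1, (key _ hg'.2).2⟩)

instance totallyDisconnected_GL : TotallyDisconnectedSpace (GL (Fin n) F) := by
  have h1 : TotallyDisconnectedSpace (Fin n → Fin n → F) := inferInstance
  have h2 : TotallyDisconnectedSpace (Matrix (Fin n) (Fin n) F) := h1
  constructor
  intro s _ hs x hx y hy
  have h3 := hs.image (fun g : GL (Fin n) F => (g : Matrix (Fin n) (Fin n) F))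
    Units.continuous_val.continuousOn
  have h4 := h3.subsingleton ⟨x, hx, rfl⟩ ⟨y, hy, rfl⟩
  exact Units.ext h4

/-- A closed subgroup of `GL_n(F)`, for a local field `F` of residue characteristic different from
`p`, has a compact open subgroup of pro-order prime to `p`. -/
theorem locallyPrimeTo_closed [LocallyCompactSpace F] {p : ℕ} (hp : p.Prime)
    (hpF : ‖(p : F)‖ = 1) (G : Subgroup (GL (Fin n) F))
    (hG : IsClosed (G : Set (GL (Fin n) F))) : LocallyPrimeTo p G := by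
  have hprop : ProperSpace F := ProperSpace.of_locallyCompactSpace F
  have hhalf : (1 / 2 : ℝ) < 1 := by norm_num
  have hhalf0 : (0 : ℝ) < 1 / 2 := by norm_num
  set U : Subgroup G := (Kr F n (1 / 2) hhalf0.le hhalf.le).subgroupOf G with hU
  have hUo : IsOpen (U : Set G) := (isOpen_Kr hhalf0 hhalf.le).preimage continuous_subtype_val
  have hUc : IsCompact (U : Set G) :=
    hG.isClosedEmbedding_subtypeVal.isCompact_preimage (isCompact_Kr hhalf0.le hhalf.le)
  refine ⟨U, hUo, hUc, fun W hW => ?_⟩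
  obtain ⟨O, hO, hOW⟩ := isOpen_induced_iff.1 hW
  have h1O : (1 : GL (Fin n) F) ∈ O := by
    have : (1 : G) ∈ (Subtype.val : G → GL (Fin n) F) ⁻¹' O := by
      rw [hOW]; exact W.one_mem
    exact this
  obtain ⟨s, hs0, hs, hsO⟩ := exists_Kr hO h1O
  set N : Subgroup G := (Kr F n s hs0.le hs).subgroupOf G with hN
  have hNo : IsOpen (N : Set G) := (isOpen_Kr hs0 hs).preimage continuous_subtype_val
  have hNW : N ≤ W := by
    intro x hx
    have : x ∈ (Subtype.val : G → GL (Fin n) F) ⁻¹' O := hsO hx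
    rw [hOW] at this
    exact this
  have hnormal : (N.subgroupOf U).Normal := by
    constructor
    intro x hx g
    exact conj_mem (g := ((g : G) : GL (Fin n) F)) (x := ((x : G) : GL (Fin n) F)) g.2 hx
  have hcomp : CompactSpace U := isCompact_iff_compactSpace.1 hUc
  have hNUo : IsOpen ((N.subgroupOf U : Subgroup U) : Set U) :=
    hNo.preimage continuous_subtype_val
  have hfin : Finite (U ⧸ N.subgroupOf U) := (N.subgroupOf U).quotient_finite_of_isOpen hNUo
  intro hdvd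
  have h2 : p ∣ N.relIndex U := hdvd.trans (Subgroup.relIndex_dvd_of_le_left U hNW)
  have h3 : p ∣ Nat.card (U ⧸ N.subgroupOf U) := h2
  have : Fact p.Prime := ⟨hp⟩
  obtain ⟨x, hx⟩ := exists_prime_orderOf_dvd_card' p h3
  obtain ⟨g, rfl⟩ := QuotientGroup.mk_surjective x
  have h4 : (QuotientGroup.mk g : U ⧸ N.subgroupOf U) ^ p = 1 := by
    rw [← hx]; exact pow_orderOf_eq_one _
  rw [← QuotientGroup.mk_pow, QuotientGroup.eq_one_iff] at h4
  have h5 : (((g : G) : GL (Fin n) F)) ∈ Kr F n s hs0.le hs :=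
    mem_Kr_of_pow hpF hhalf g.2 h4
  have h6 : (QuotientGroup.mk g : U ⧸ N.subgroupOf U) = 1 :=
    (QuotientGroup.eq_one_iff _).2 h5
  rw [h6, orderOf_one] at hx
  exact hp.one_lt.ne hx

end Pool.Agent.Y804.TV
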