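import Pool.Agent.Y804.TV.Prof

/-!
Classes in Tate cohomology which are fixed by a subgroup `K` of `G^σ` have representatives which are
fixed by a compact open subgroup of `G` depending only on `K`.
-/

set_option autoImplicit false

namespace Pool.Agent.Y804.TV

open Finset Function

section Algebra

variable {k U V : Type*} [Field k] [Group U] [AddCommGroup V] [Module k V] {p : ℕ}
  {ρ : Representation k U V} {σ : U →* U} {S : V →ₗ[k] V}

theorem S_pow_fixed (hp : 0 < p) (hS : ∀ u, S * ρ u = ρ (σ u) * S) (hσp : ∀ x, σ^[p] x = x)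
    {B : Subgroup U} (hBσ : ∀ b ∈ B, σ b ∈ B) (i : ℕ) {v : V} (hv : ∀ b ∈ B, ρ b v = v) :
    ∀ b ∈ B, ρ b ((S ^ i) v) = (S ^ i) v := by
  induction i generalizing v with
  | zero => simpa using hv
  | succ i ih =>
    intro b hb
    rw [pow_succ, Module.End.mul_apply]
    exact ih (S_fixed hp hS hσp hBσ hv) b hb

theorem S_pow_csum (hp : 0 < p) (hS : ∀ u, S * ρ u = ρ (σ u) * S) (hσp : ∀ x, σ^[p] x = x)
    {B : Subgroup U} [Finite (U ⧸ B)] (hBσ : ∀ b ∈ B, σ b ∈ B) (i : ℕ) {v : V}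
    (hv : ∀ b ∈ B, ρ b v = v) : (S ^ i) (csum ρ B v) = csum ρ B ((S ^ i) v) := by
  induction i generalizing v with
  | zero => simp
  | succ i ih =>
    rw [pow_succ, Module.End.mul_apply, Module.End.mul_apply, S_csum hp hS hσp hBσ hv,
      ih (S_fixed hp hS hσp hBσ hv)]

theorem N_csum (hp : 0 < p) (hS : ∀ u, S * ρ u = ρ (σ u) * S) (hσp : ∀ x, σ^[p] x = x)
    {B : Subgroup U} [Finite (U ⧸ B)] (hBσ : ∀ b ∈ B, σ b ∈ B) {v : V}
    (hv : ∀ b ∈ B, ρ b v = v) :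
    (∑ i ∈ range p, S ^ i) (csum ρ B v) = csum ρ B ((∑ i ∈ range p, S ^ i) v) := by
  rw [LinearMap.sum_apply, LinearMap.sum_apply, map_sum]
  exact Finset.sum_congr rfl fun i _ => S_pow_csum hp hS hσp hBσ i hv

/-- Averaging over `K`. -/
theorem average (K W : Subgroup U) [W.Normal] (hW : (W.index : k) ≠ 0)
    {v : V} (hv : ∀ w ∈ W, ρ w v = v) (R : Submodule k V) (hR : ∀ h ∈ K, ρ h v - v ∈ R) :
    ∃ v₁, (∀ h ∈ K, ρ h v₁ = v₁) ∧ v₁ - v ∈ R ∧
      ∀ C : V →ₗ[k] V, (∀ h ∈ K, Commute (ρ h) C) → C v = 0 → C v₁ = 0 := by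
  have hfi : W.FiniteIndex := ⟨fun h => hW (by rw [h, Nat.cast_zero])⟩
  let ρK : Representation k K V := ρ.comp K.subtype
  have hfin : Finite (K ⧸ W.subgroupOf K) := Subgroup.finite_quotient_of_finiteIndex
  have hcard : (Nat.card (K ⧸ W.subgroupOf K) : k) ≠ 0 := by
    have h1 : W.relIndex K ∣ W.index := Subgroup.relIndex_dvd_index_of_normal _ _
    obtain ⟨m, hm⟩ := h1
    intro h
    apply hW
    have h2 : Nat.card (K ⧸ W.subgroupOf K) = W.relIndex K := rfl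
    rw [hm, ← h2, Nat.cast_mul, h, zero_mul]
  have hvK : ∀ b ∈ W.subgroupOf K, ρK b v = v := fun b hb => hv _ hb
  refine ⟨(Nat.card (K ⧸ W.subgroupOf K) : k)⁻¹ • csum ρK (W.subgroupOf K) v, ?_, ?_, ?_⟩
  · intro h hh
    rw [map_smul]
    congr 1
    exact apply_csum hvK ⟨h, hh⟩
  · have h1 : csum ρK (W.subgroupOf K) v - (Nat.card (K ⧸ W.subgroupOf K) : k) • v ∈ R :=
      csum_sub_mem R fun a => hR a a.2
    have h2 := R.smul_mem (Nat.card (K ⧸ W.subgroupOf K) : k)⁻¹ h1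
    rw [smul_sub, smul_smul, inv_mul_cancel₀ hcard, one_smul] at h2
    exact h2
  · intro C hC hCv
    rw [map_smul, csum_comm (ρ := ρK) (B := W.subgroupOf K) C (fun a => hC a a.2) v, hCv,
      map_zero, smul_zero]

end Algebra

section Profinite

variable {k C V : Type*} [Field k] [Group C] [TopologicalSpace C] [IsTopologicalGroup C]
  [CompactSpace C] [TotallyDisconnectedSpace C] [AddCommGroup V] [Module k V] {p : ℕ}
  {ρ : Representation k C V} {σ : C →* C} {S : V →ₗ[k] V}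

/-- The sum over the cosets in an open subgroup `U` of an open subgroup `B`. -/
theorem core_step [CharP k p] (hp : p.Prime) (hσ : Continuous σ) (hσp : ∀ x, σ^[p] x = x)
    (hidx : ∀ W : Subgroup C, IsOpen (W : Set C) → ¬ p ∣ W.index)
    (hS : ∀ u, S * ρ u = ρ (σ u) * S) (hSp : S ^ p = 1) {K U B : Subgroup C}
    (hU : IsOpen (U : Set C)) (hB : IsOpen (B : Set C)) (hKB : K ≤ B)
    (hUσ : ∀ x ∈ U, σ x ∈ U) (hBσ : ∀ x ∈ B, σ x ∈ B) (hUK : ∀ x ∈ U, σ x = x → x ∈ K)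
    {v : V} (hv : ∀ b ∈ B, ρ b v = v) :
    ∃ w, (∀ u ∈ U, ρ u w = w) ∧
      (S v = v → S w = w ∧ w - v ∈ LinearMap.range (∑ i ∈ range p, S ^ i)) ∧
      ((∑ i ∈ range p, S ^ i) v = 0 → (∑ i ∈ range p, S ^ i) w = 0 ∧
        w - v ∈ LinearMap.range (1 - S)) := by
  have hcomp : CompactSpace U :=
    isCompact_iff_compactSpace.1 (U.isClosed_of_isOpen hU).isCompact
  let ρU : Representation k U V := ρ.comp U.subtype
  let σU : U →* U := (σ.comp U.subtype).codRestrict U fun x => hUσ x x.2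
  have hσU : Continuous σU := Continuous.subtype_mk (hσ.comp continuous_subtype_val) _
  have hit : ∀ (n : ℕ) (x : U), ((σU^[n] x : U) : C) = σ^[n] x := by
    intro n
    induction n with
    | zero => intro x; rfl
    | succ n ih => intro x; rw [iterate_succ_apply, ih]; rfl
  have hσUp : ∀ x, σU^[p] x = x := fun x => Subtype.ext (by rw [hit, hσp])
  have hidxU : ∀ W : Subgroup U, IsOpen (W : Set U) → ¬ p ∣ W.index := by
    intro W hW h
    refine hidx (W.map U.subtype) ?_ ?_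
    · rw [Subgroup.coe_map]
      exact hU.isOpenMap_subtype_val _ hW
    · rw [Subgroup.index_map_subtype]
      exact Dvd.dvd.mul_right h _
  have hSU : ∀ u : U, S * ρU u = ρU (σU u) * S := fun u => hS u
  have hB' : IsOpen ((B.subgroupOf U : Subgroup U) : Set U) := by
    rw [Subgroup.coe_subgroupOf]
    exact hB.preimage continuous_subtype_val
  have hfin : Finite (U ⧸ B.subgroupOf U) := (B.subgroupOf U).quotient_finite_of_isOpen hB'
  have hBσU : ∀ b ∈ B.subgroupOf U, σU b ∈ B.subgroupOf U := fun b hb => hBσ _ hb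
  have hfix : ∀ u : U, u⁻¹ * σU u ∈ B.subgroupOf U → u ∈ B.subgroupOf U := by
    intro u hu
    obtain ⟨b, hb, hub⟩ := fixed_coset hp hσU hσUp hidxU hB' hBσU hu
    have h1 : ((u * b : U) : C) ∈ K := by
      refine hUK _ (u * b).2 ?_
      exact congrArg Subtype.val hub
    have h2 : u * b ∈ B.subgroupOf U := hKB h1
    exact (Subgroup.mul_mem_cancel_right _ hb).1 h2
  have hvU : ∀ b ∈ B.subgroupOf U, ρU b v = v := fun b hb => hv _ hb
  refine ⟨csum ρU (B.subgroupOf U) v, fun u hu => apply_csum hvU ⟨u, hu⟩, ?_, ?_⟩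
  · intro hSv
    refine ⟨?_, csum_core0 hp hSU hσUp hBσU hfix hvU hSv⟩
    rw [S_csum hp.pos hSU hσUp hBσU hvU, hSv]
  · intro hNv
    refine ⟨?_, csum_core1 hp hSU hSp hσUp hBσU hfix hvU hNv⟩
    rw [N_csum hp.pos hSU hσUp hBσU hvU, hNv, map_zero]

omit [TopologicalSpace C] [IsTopologicalGroup C] [CompactSpace C] [TotallyDisconnectedSpace C] in
theorem mem_sup_normal {K W : Subgroup C} [W.Normal] {x : C} (hx : x ∈ K ⊔ W) :
    ∃ h ∈ K, ∃ w ∈ W, h * w = x :=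
  Subgroup.mem_sup_of_normal_right.1 hx

/-- The representatives fixed by an open subgroup. -/
theorem approx [CharP k p] (hp : p.Prime) (hσ : Continuous σ) (hσp : ∀ x, σ^[p] x = x)
    (hidx : ∀ W : Subgroup C, IsOpen (W : Set C) → ¬ p ∣ W.index)
    (hsm : ∀ v : V, IsOpen {c : C | ρ c v = v})
    (hS : ∀ u, S * ρ u = ρ (σ u) * S) (hSp : S ^ p = 1) (K : Subgroup C)
    (hK : ∀ h ∈ K, σ h = h) {O : Set C} (hO : IsOpen O) (h1O : 1 ∈ O)
    (hOK : ∀ x ∈ O, σ x = x → x ∈ K) :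
    ∃ U : Subgroup C, IsOpen (U : Set C) ∧ ∀ v : V,
      (S v = v → (∀ h ∈ K, ρ h v - v ∈ LinearMap.range (∑ i ∈ range p, S ^ i)) →
        ∃ w, (∀ u ∈ U, ρ u w = w) ∧ S w = w ∧
          w - v ∈ LinearMap.range (∑ i ∈ range p, S ^ i)) ∧
      ((∑ i ∈ range p, S ^ i) v = 0 → (∀ h ∈ K, ρ h v - v ∈ LinearMap.range (1 - S)) →
        ∃ w, (∀ u ∈ U, ρ u w = w) ∧ (∑ i ∈ range p, S ^ i) w = 0 ∧
          w - v ∈ LinearMap.range (1 - S)) := by
  obtain ⟨W, hWn, hWo, hWO, hWσ⟩ := exists_stable hp.pos hσ hσp hO h1O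
  have hcomm : ∀ h ∈ K, Commute (ρ h) S := by
    intro h hh
    have := hS h
    rw [hK h hh] at this
    exact this.symm
  have hcommN : ∀ h ∈ K, Commute (ρ h) (∑ i ∈ range p, S ^ i) := fun h hh =>
    Commute.sum_right _ _ _ fun i _ => (hcomm h hh).pow_right i
  have hsup : ∀ W' : Subgroup C, W'.Normal → (∀ x ∈ W', σ x ∈ W') → ∀ x ∈ K ⊔ W', σ x ∈ K ⊔ W' := by
    intro W' hn hσW' x hx
    obtain ⟨h, hh, w, hw, rfl⟩ := mem_sup_normal hx
    rw [map_mul, hK h hh]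
    exact mul_mem (Subgroup.mem_sup_left hh) (Subgroup.mem_sup_right (hσW' _ hw))
  have hUfix : ∀ x ∈ K ⊔ W, σ x = x → x ∈ K := by
    intro x hx hxσ
    obtain ⟨h, hh, w, hw, rfl⟩ := mem_sup_normal hx
    rw [map_mul, hK h hh] at hxσ
    exact K.mul_mem hh (hOK w (hWO hw) (mul_left_cancel hxσ))
  have hUo : IsOpen ((K ⊔ W : Subgroup C) : Set C) := Subgroup.isOpen_mono le_sup_right hWo
  -- the second step, common to the two cases
  have step : ∀ v₁ : V, (∀ h ∈ K, ρ h v₁ = v₁) →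
      ∃ w, (∀ u ∈ K ⊔ W, ρ u w = w) ∧
      (S v₁ = v₁ → S w = w ∧ w - v₁ ∈ LinearMap.range (∑ i ∈ range p, S ^ i)) ∧
      ((∑ i ∈ range p, S ^ i) v₁ = 0 → (∑ i ∈ range p, S ^ i) w = 0 ∧
        w - v₁ ∈ LinearMap.range (1 - S)) := by
    intro v₁ hv₁
    obtain ⟨W', hWn', hWo', hWO', hWσ'⟩ := exists_stable hp.pos hσ hσp (hsm v₁)
      (by simp)
    have hstab : ∀ b ∈ K ⊔ W', ρ b v₁ = v₁ := by
      intro b hb
      obtain ⟨h, hh, w, hw, rfl⟩ := mem_sup_normal hb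
      have h2 : ρ w v₁ = v₁ := hWO' hw
      rw [map_mul, Module.End.mul_apply, h2, hv₁ h hh]
    exact core_step hp hσ hσp hidx hS hSp hUo (Subgroup.isOpen_mono le_sup_right hWo')
      le_sup_left (hsup W hWn hWσ) (hsup W' hWn' hWσ') hUfix hstab
  refine ⟨K ⊔ W, hUo, fun v => ?_⟩
  obtain ⟨W₁, hWn₁, hWo₁, hWO₁, -⟩ := exists_stable hp.pos hσ hσp (hsm v) (by simp)
  have hidx₁ : (W₁.index : k) ≠ 0 := by
    rw [Ne, CharP.cast_eq_zero_iff k p]
    exact hidx W₁ hWo₁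
  constructor
  · intro hSv hR
    obtain ⟨v₁, h1, h2, h3⟩ := average K W₁ hidx₁ (fun w hw => hWO₁ hw) _ hR
    have h4 : S v₁ = v₁ := by
      have := h3 (1 - S) (fun h hh => (Commute.one_right _).sub_right (hcomm h hh))
        (by rw [LinearMap.sub_apply, Module.End.one_apply, hSv, sub_self])
      rw [LinearMap.sub_apply, Module.End.one_apply, sub_eq_zero] at this
      exact this.symm
    obtain ⟨w, hw1, hw2, -⟩ := step v₁ h1
    refine ⟨w, hw1, (hw2 h4).1, ?_⟩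
    have := Submodule.add_mem _ (hw2 h4).2 h2
    rwa [sub_add_sub_cancel] at this
  · intro hNv hR
    obtain ⟨v₁, h1, h2, h3⟩ := average K W₁ hidx₁ (fun w hw => hWO₁ hw) _ hR
    have h4 := h3 _ hcommN hNv
    obtain ⟨w, hw1, -, hw2⟩ := step v₁ h1
    refine ⟨w, hw1, (hw2 h4).1, ?_⟩
    have := Submodule.add_mem _ (hw2 h4).2 h2
    rwa [sub_add_sub_cancel] at this

end Profinite

end Pool.Agent.Y804.TV
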