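import Pool.Agent.Y804.TV.Defs
import Pool.Agent.Y804.TV.Approx

/-!
Admissibility of Tate cohomology.
-/

set_option autoImplicit false

namespace Pool.Agent.Y804.TV

open Finset Function

section General

variable {k H V : Type*} [Field k] [Group H] [AddCommGroup V] [Module k V]

/-- The stabiliser of a vector. -/
def stab (ρ : Representation k H V) (v : V) : Subgroup H where
  carrier := {h | ρ h v = v}
  one_mem' := by simp
  mul_mem' {a b} ha hb := by
    simp only [Set.mem_ofPred_eq] at ha hb ⊢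
    rw [map_mul, Module.End.mul_apply, hb, ha]
  inv_mem' {a} ha := by
    simp only [Set.mem_ofPred_eq] at ha ⊢
    conv_lhs => rw [← ha]
    rw [← Module.End.mul_apply, ← map_mul, inv_mul_cancel, map_one, Module.End.one_apply]

theorem mem_stab {ρ : Representation k H V} {v : V} {h : H} : h ∈ stab ρ v ↔ ρ h v = v := Iff.rfl

theorem mem_fixedBy {ρ : Representation k H V} {K : Subgroup H} {v : V} :
    v ∈ fixedBy ρ K ↔ ∀ h ∈ K, ρ h v = v := by
  simp only [fixedBy, Submodule.mem_iInf, LinearMap.mem_eqLocus, LinearMap.id_apply]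

theorem fixedBy_anti {ρ : Representation k H V} {K K' : Subgroup H} (h : K' ≤ K) :
    fixedBy ρ K ≤ fixedBy ρ K' := fun _ hv =>
  mem_fixedBy.2 fun x hx => mem_fixedBy.1 hv x (h hx)

variable {ρ : Representation k H V} {A B : V →ₗ[k] V} {hA : ∀ g, Commute (ρ g) A}
  {hB : ∀ g, Commute (ρ g) B}

/-- The class of an element of `ker A`. -/
def cls {A : V →ₗ[k] V} (B : V →ₗ[k] V) (v : V) (hv : v ∈ LinearMap.ker A) : Subquotient A B :=
  Submodule.Quotient.mk (p := (LinearMap.range B).comap (LinearMap.ker A).subtype) ⟨v, hv⟩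

theorem cls_surj {A B : V →ₗ[k] V} (x : Subquotient A B) : ∃ v hv, cls (A := A) B v hv = x := by
  obtain ⟨⟨v, hv⟩, h⟩ := Submodule.Quotient.mk_surjective _ x
  exact ⟨v, hv, h⟩

theorem cls_eq {A B : V →ₗ[k] V} {v w : V} {hv : v ∈ LinearMap.ker A} {hw : w ∈ LinearMap.ker A} :
    cls B v hv = cls B w hw ↔ v - w ∈ LinearMap.range B :=
  Submodule.Quotient.eq _

theorem subquotient_mk (h : H) (v : V) (hv : v ∈ LinearMap.ker A)
    (hv' : ρ h v ∈ LinearMap.ker A) :
    subquotient ρ A B hA hB h (cls B v hv) = cls B (ρ h v) hv' := rfl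

theorem ker_stable (hA : ∀ g, Commute (ρ g) A) (h : H) {v : V} (hv : v ∈ LinearMap.ker A) :
    ρ h v ∈ LinearMap.ker A := ker_le_comap (hA h) hv

theorem subquotient_smooth [TopologicalSpace H] [IsTopologicalGroup H] (hρ : IsSmooth ρ) :
    IsSmooth (subquotient ρ A B hA hB) := by
  intro x
  obtain ⟨v, hv, rfl⟩ := cls_surj x
  have h1 : IsOpen ((stab ρ v : Subgroup H) : Set H) := hρ v
  refine Subgroup.isOpen_mono (H₂ := stab (subquotient ρ A B hA hB) (cls B v hv)) ?_ h1
  intro h hh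
  rw [mem_stab] at hh ⊢
  rw [subquotient_mk h v hv (ker_stable hA h hv), cls_eq, hh, sub_self]
  exact Submodule.zero_mem _

theorem subquotient_finite (K : Subgroup H) (E : Submodule k V) [FiniteDimensional k E]
    (h : ∀ v, A v = 0 → (∀ h ∈ K, ρ h v - v ∈ LinearMap.range B) →
      ∃ w ∈ E, A w = 0 ∧ w - v ∈ LinearMap.range B) :
    FiniteDimensional k (fixedBy (subquotient ρ A B hA hB) K) := by
  let L : ↥(E ⊓ LinearMap.ker A) →ₗ[k] Subquotient A B :=
    (Submodule.mkQ ((LinearMap.range B).comap (LinearMap.ker A).subtype)).comp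
      (Submodule.inclusion inf_le_right)
  have hfin : FiniteDimensional k ↥(E ⊓ LinearMap.ker A) :=
    Submodule.finiteDimensional_of_le (inf_le_left : E ⊓ LinearMap.ker A ≤ E)
  have hle : fixedBy (subquotient ρ A B hA hB) K ≤ LinearMap.range L := by
    intro x hx
    obtain ⟨v, hv, rfl⟩ := cls_surj x
    rw [mem_fixedBy] at hx
    obtain ⟨w, hwE, hwA, hwv⟩ := h v hv (fun g hg => by
      have h1 := hx g hg
      rw [subquotient_mk g v hv (ker_stable hA g hv), cls_eq] at h1
      exact h1)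
    refine ⟨⟨w, hwE, hwA⟩, ?_⟩
    change cls B w hwA = cls B v hv
    rw [cls_eq]
    exact hwv
  exact Submodule.finiteDimensional_of_le hle

end General

section Main

variable {G : Type*} [Group G] [TopologicalSpace G] [IsTopologicalGroup G] {p : ℕ} {σ : G ≃* G}

theorem exists_stable_compact (hp : 0 < p) (hσ : Continuous σ) (hσp : ∀ x, σ^[p] x = x)
    (hG : LocallyPrimeTo p G) :
    ∃ U : Subgroup G, IsOpen (U : Set G) ∧ IsCompact (U : Set G) ∧ (∀ x ∈ U, σ x ∈ U) ∧
      ∀ W : Subgroup G, IsOpen (W : Set G) → ¬ p ∣ W.relIndex U := by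
  obtain ⟨U₀, hU₀o, hU₀c, hU₀⟩ := hG
  let it (i : ℕ) : G →* G :=
    { toFun := σ^[i]
      map_one' := iterate_map_one σ i
      map_mul' := iterate_map_mul σ i }
  let U : Subgroup G := ⨅ i : Fin p, U₀.comap (it i)
  have hmem : ∀ x, x ∈ U ↔ ∀ i < p, σ^[i] x ∈ U₀ := by
    intro x
    simp only [U, Subgroup.mem_iInf, Subgroup.mem_comap]
    exact ⟨fun h i hi => h ⟨i, hi⟩, fun h i => h i i.2⟩
  have hUo : IsOpen (U : Set G) := by
    have : (U : Set G) = ⋂ i : Fin p, (σ^[i]) ⁻¹' (U₀ : Set G) := by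
      ext x
      rw [SetLike.mem_coe, hmem, Set.mem_iInter]
      exact ⟨fun h i => h i i.2, fun h i hi => h ⟨i, hi⟩⟩
    rw [this]
    exact isOpen_iInter_of_finite fun i => hU₀o.preimage (hσ.iterate i)
  have hUle : U ≤ U₀ := fun x hx => (hmem x).1 hx 0 hp
  refine ⟨U, hUo, ?_, ?_, ?_⟩
  · exact hU₀c.of_isClosed_subset (U.isClosed_of_isOpen hUo) hUle
  · intro x hx
    rw [hmem] at hx ⊢
    intro i hi
    rw [← iterate_succ_apply]
    rcases Nat.lt_or_ge (i + 1) p with h | h
    · exact hx _ h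
    · have : i + 1 = p := by omega
      rw [Nat.succ_eq_add_one, this, hσp]
      exact hx 0 hp
  · intro W hW h
    have h1 := Subgroup.relIndex_mul_relIndex (W ⊓ U) U U₀ inf_le_right hUle
    rw [Subgroup.inf_relIndex_right] at h1
    exact hU₀ (W ⊓ U) (hW.inter hUo) (h1 ▸ Dvd.dvd.mul_right h _)

variable [TotallyDisconnectedSpace G] {k V : Type*} [Field k] [AddCommGroup V] [Module k V]
  {ρ : Representation k G V}

/-- The representatives fixed by a compact open subgroup of `G`. -/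
theorem exists_open [CharP k p] (hp : p.Prime) (hσ : Continuous σ) (hσp : ∀ x, σ^[p] x = x)
    (hG : LocallyPrimeTo p G) (hρ : IsAdmissible ρ) (e : SigmaAction ρ σ p)
    (K : Subgroup (fixedSubgroup σ)) (hK : IsOpen (K : Set (fixedSubgroup σ))) :
    ∃ K' ≤ K, ∃ E : Submodule k V, FiniteDimensional k E ∧ ∀ v : V,
      (e.S v = v → (∀ h ∈ K', ρ (h : G) v - v ∈ LinearMap.range e.N) →
        ∃ w ∈ E, e.S w = w ∧ w - v ∈ LinearMap.range e.N) ∧
      (e.N v = 0 → (∀ h ∈ K', ρ (h : G) v - v ∈ LinearMap.range (1 - e.S)) →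
        ∃ w ∈ E, e.N w = 0 ∧ w - v ∈ LinearMap.range (1 - e.S)) := by
  obtain ⟨U₁, hU₁o, hU₁c, hU₁σ, hU₁⟩ := exists_stable_compact hp.pos hσ hσp hG
  let K' : Subgroup (fixedSubgroup σ) := K ⊓ U₁.subgroupOf (fixedSubgroup σ)
  have hK'o : IsOpen (K' : Set (fixedSubgroup σ)) := by
    refine hK.inter ?_
    exact hU₁o.preimage continuous_subtype_val
  have hcomp : CompactSpace U₁ := isCompact_iff_compactSpace.1 hU₁c
  let ρC : Representation k U₁ V := ρ.comp U₁.subtype
  let σC : U₁ →* U₁ :=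
    ((σ : G →* G).comp U₁.subtype).codRestrict U₁ fun x => hU₁σ x x.2
  have hσC : Continuous σC := Continuous.subtype_mk (hσ.comp continuous_subtype_val) _
  have hit : ∀ (n : ℕ) (x : U₁), ((σC^[n] x : U₁) : G) = σ^[n] x := by
    intro n
    induction n with
    | zero => intro x; rfl
    | succ n ih => intro x; rw [iterate_succ_apply, ih]; rfl
  have hσCp : ∀ x, σC^[p] x = x := fun x => Subtype.ext (by rw [hit, hσp])
  have hidx : ∀ W : Subgroup U₁, IsOpen (W : Set U₁) → ¬ p ∣ W.index := by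
    intro W hW h
    refine hU₁ (W.map U₁.subtype) ?_ ?_
    · rw [Subgroup.coe_map]
      exact hU₁o.isOpenMap_subtype_val _ hW
    · have h1 : (W.map U₁.subtype).subgroupOf U₁ = W :=
        Subgroup.comap_map_eq_self_of_injective U₁.subtype_injective W
      rw [Subgroup.relIndex, h1]
      exact h
  have hsm : ∀ v : V, IsOpen {c : U₁ | ρC c v = v} := fun v =>
    (hρ.1 v).preimage continuous_subtype_val
  have hS : ∀ u, e.S * ρC u = ρC (σC u) * e.S := fun u => e.comm u
  let KC : Subgroup U₁ := (K'.map (fixedSubgroup σ).subtype).subgroupOf U₁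
  have hKC : ∀ h ∈ KC, σC h = h := by
    rintro h ⟨g, _, hg⟩
    apply Subtype.ext
    change σ (h : G) = h
    have hg' : (g : G) = h := hg
    rw [← hg']
    exact g.2
  obtain ⟨O, hO, hOK⟩ := isOpen_induced_iff.1 hK'o
  have hOmem : ∀ g : fixedSubgroup σ, (g : G) ∈ O ↔ g ∈ K' := fun g => by
    rw [← SetLike.mem_coe, ← hOK]
    rfl
  obtain ⟨U, hU, hUv⟩ := approx hp hσC hσCp hidx hsm hS e.pow_eq_one KC hKC
    (O := (Subtype.val : U₁ → G) ⁻¹' O) (hO.preimage continuous_subtype_val)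
    ((hOmem 1).2 (one_mem _)) (by
      intro x hx hxσ
      have hx1 : σ (x : G) = x := congrArg Subtype.val hxσ
      exact ⟨⟨x, hx1⟩, (hOmem ⟨x, hx1⟩).1 hx, rfl⟩)
  have hUGo : IsOpen ((U.map U₁.subtype : Subgroup G) : Set G) := by
    rw [Subgroup.coe_map]
    exact hU₁o.isOpenMap_subtype_val _ hU
  have hUGc : IsCompact ((U.map U₁.subtype : Subgroup G) : Set G) := by
    rw [Subgroup.coe_map]
    exact (U.isClosed_of_isOpen hU).isCompact.image continuous_subtype_val
  refine ⟨K', inf_le_left, fixedBy ρ (U.map U₁.subtype), hρ.2 _ hUGo hUGc, fun v => ?_⟩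
  have hfix : ∀ w, (∀ u ∈ U, ρC u w = w) → w ∈ fixedBy ρ (U.map U₁.subtype) := by
    intro w hw
    rw [mem_fixedBy]
    rintro _ ⟨u, hu, rfl⟩
    exact hw u hu
  constructor
  · intro hSv hR
    obtain ⟨w, hw1, hw2, hw3⟩ := (hUv v).1 hSv (by
      rintro h ⟨g, hg, hg'⟩
      have : ρC h v = ρ (g : G) v := by
        change ρ (h : G) v = _
        rw [← show (g : G) = h from hg']
      rw [this]
      exact hR g hg)
    exact ⟨w, hfix w hw1, hw2, hw3⟩
  · intro hNv hR
    obtain ⟨w, hw1, hw2, hw3⟩ := (hUv v).2 hNv (by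
      rintro h ⟨g, hg, hg'⟩
      have : ρC h v = ρ (g : G) v := by
        change ρ (h : G) v = _
        rw [← show (g : G) = h from hg']
      rw [this]
      exact hR g hg)
    exact ⟨w, hfix w hw1, hw2, hw3⟩

omit [IsTopologicalGroup G] [TotallyDisconnectedSpace G] in
theorem restrict_smooth (hρ : IsSmooth ρ) : IsSmooth (restrict ρ (fixedSubgroup σ)) := fun v =>
  (hρ v).preimage continuous_subtype_val

/-- The Tate cohomology of an admissible representation is admissible. -/
theorem main [CharP k p] (hp : p.Prime) (hσ : Continuous σ) (hσp : ∀ x, σ^[p] x = x)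
    (hG : LocallyPrimeTo p G) (hρ : IsAdmissible ρ) (e : SigmaAction ρ σ p) :
    IsAdmissible e.T0 ∧ IsAdmissible e.T1 := by
  refine ⟨⟨subquotient_smooth (restrict_smooth hρ.1), fun K hK _ => ?_⟩,
    ⟨subquotient_smooth (restrict_smooth hρ.1), fun K hK _ => ?_⟩⟩
  · obtain ⟨K', hK', E, hE, h⟩ := exists_open hp hσ hσp hG hρ e K hK
    have h1 : FiniteDimensional k (fixedBy e.T0 K') := subquotient_finite K' E (by
      intro v hv hR
      rw [LinearMap.sub_apply, Module.End.one_apply, sub_eq_zero] at hv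
      obtain ⟨w, hwE, hw1, hw2⟩ := (h v).1 hv.symm hR
      exact ⟨w, hwE, by rw [LinearMap.sub_apply, Module.End.one_apply, hw1, sub_self], hw2⟩)
    exact Submodule.finiteDimensional_of_le (fixedBy_anti hK')
  · obtain ⟨K', hK', E, hE, h⟩ := exists_open hp hσ hσp hG hρ e K hK
    have h1 : FiniteDimensional k (fixedBy e.T1 K') :=
      subquotient_finite K' E (fun v hv hR => (h v).2 hv hR)
    exact Submodule.finiteDimensional_of_le (fixedBy_anti hK')

end Main

end Pool.Agent.Y804.TV
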