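import Mathlib

/-!
Sums over orbits of a map of order `p`, and averages over cosets.
-/

set_option autoImplicit false

namespace Pool.Agent.Y804.TV

open Finset Function

section Orbits

variable {X M : Type*} [AddCommGroup M] {p : ℕ}

theorem injOn_iterate (hp : p.Prime) {τ : X → X} (hτ : ∀ x, τ^[p] x = x) {x : X}
    (hx : τ x ≠ x) : Set.InjOn (fun i => τ^[i] x) (Set.Iio p) := by
  have h1 : minimalPeriod τ x ∣ p := IsPeriodicPt.minimalPeriod_dvd (hτ x)
  rcases (Nat.dvd_prime hp).1 h1 with h2 | h2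
  · exact absurd (minimalPeriod_eq_one_iff_isFixedPt.1 h2) hx
  · have := iterate_injOn_Iio_minimalPeriod (f := τ) (x := x)
    rw [h2] at this
    exact this

theorem iterate_mod {τ : X → X} (hτ : ∀ x, τ^[p] x = x) (n : ℕ) (x : X) :
    τ^[n % p] x = τ^[n] x := by
  have h1 : IsPeriodicPt τ p x := hτ x
  exact h1.iterate_mod_apply n

theorem sum_mem_of_no_fixed (hp : p.Prime) {τ : X → X} (hτ : ∀ x, τ^[p] x = x) (f : X → M)
    (W : AddSubgroup M) (hf : ∀ x, ∑ i ∈ range p, f (τ^[i] x) ∈ W) (s : Finset X) :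
    (∀ x ∈ s, τ x ∈ s) → (∀ x ∈ s, τ x ≠ x) → ∑ x ∈ s, f x ∈ W := by
  classical
  induction s using Finset.strongInduction with
  | H s ih =>
    intro hs hne
    rcases s.eq_empty_or_nonempty with rfl | ⟨x, hx⟩
    · simp
    · set O : Finset X := (range p).image (fun i => τ^[i] x) with hO
      have hpos : 0 < p := hp.pos
      have hit : ∀ i, τ^[i] x ∈ s := by
        intro i
        induction i with
        | zero => exact hx
        | succ i ih => rw [iterate_succ_apply']; exact hs _ ih
      have hOs : O ⊆ s := by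
        intro y hy
        rw [hO, mem_image] at hy
        obtain ⟨i, _, rfl⟩ := hy
        exact hit i
      have hOit : ∀ n, τ^[n] x ∈ O := by
        intro n
        rw [hO, mem_image]
        exact ⟨n % p, mem_range.2 (Nat.mod_lt _ hpos), iterate_mod hτ n x⟩
      have hxO : x ∈ O := hOit 0
      have hss : s \ O ⊂ s := by
        refine (Finset.sdiff_ssubset hOs ⟨x, hxO⟩)
      have h1 := ih (s \ O) hss ?_ ?_
      · rw [← Finset.sum_sdiff hOs]
        refine W.add_mem h1 ?_
        rw [hO, Finset.sum_image]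
        · exact hf x
        · intro i hi j hj hij
          exact injOn_iterate hp hτ (hne x hx) (by simpa using hi) (by simpa using hj) hij
      · intro y hy
        rw [mem_sdiff] at hy ⊢
        refine ⟨hs y hy.1, fun hc => hy.2 ?_⟩
        rw [hO, mem_image] at hc
        obtain ⟨i, _, hi⟩ := hc
        have h2 : τ^[p - 1 + i] x = y := by
          rw [iterate_add_apply, hi, ← iterate_succ_apply τ (p - 1) y]
          have : (p - 1).succ = p := by omega
          rw [this, hτ]
        rw [← h2]
        exact hOit _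
      · intro y hy
        exact hne y (mem_sdiff.1 hy).1

/-- A map of order dividing the prime `p` on a finite set of cardinality prime to `p` has a fixed
point. -/
theorem exists_fixed [Finite X] (hp : p.Prime) {τ : X → X} (hτ : ∀ x, τ^[p] x = x)
    (hX : ¬ p ∣ Nat.card X) : ∃ x, τ x = x := by
  classical
  by_contra hne
  push Not at hne
  have := Fintype.ofFinite X
  have h1 := sum_mem_of_no_fixed hp hτ (fun _ : X => (1 : ZMod p)) ⊥ (fun x => by simp)
    Finset.univ (fun _ _ => Finset.mem_univ _) (fun x _ => hne x)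
  rw [AddSubgroup.mem_bot] at h1
  simp only [sum_const, card_univ, nsmul_eq_mul, mul_one] at h1
  rw [ZMod.natCast_eq_zero_iff] at h1
  rw [Nat.card_eq_fintype_card] at hX
  exact hX h1

end Orbits

section Average

variable {k A V : Type*} [Field k] [Group A] [AddCommGroup V] [Module k V]
  (ρ : Representation k A V) (B : Subgroup A)

/-- The sum of the translates of `v` over `A ⧸ B`. -/
noncomputable def csum [Finite (A ⧸ B)] : V →ₗ[k] V :=
  letI := Fintype.ofFinite (A ⧸ B)
  ∑ q : A ⧸ B, ρ q.out

variable {ρ B}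

theorem csum_eq [Fintype (A ⧸ B)] (v : V) : csum ρ B v = ∑ q : A ⧸ B, ρ q.out v := by
  unfold csum
  rw [LinearMap.sum_apply]
  exact Finset.sum_congr (by ext; simp) fun _ _ => rfl

theorem out_apply {v : V} (hv : ∀ b ∈ B, ρ b v = v) (a : A) :
    ρ (a : A ⧸ B).out v = ρ a v := by
  obtain ⟨b, hb⟩ := QuotientGroup.mk_out_eq_mul B a
  rw [hb, map_mul, Module.End.mul_apply, hv b b.2]

theorem out_apply' {v : V} (hv : ∀ b ∈ B, ρ b v = v) {a : A} {q : A ⧸ B} (hq : (a : A ⧸ B) = q) :
    ρ q.out v = ρ a v := by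
  rw [← hq, out_apply hv]

theorem apply_csum [Finite (A ⧸ B)] {v : V} (hv : ∀ b ∈ B, ρ b v = v) (a : A) :
    ρ a (csum ρ B v) = csum ρ B v := by
  classical
  have := Fintype.ofFinite (A ⧸ B)
  rw [csum_eq, map_sum]
  refine Fintype.sum_equiv (MulAction.toPerm a : Equiv.Perm (A ⧸ B)) _ _ fun q => ?_
  rw [← Module.End.mul_apply, ← map_mul]
  refine (out_apply' hv ?_).symm
  rw [MulAction.toPerm_apply]
  conv_rhs => rw [← QuotientGroup.out_eq' q]
  rfl

theorem csum_sub_mem [Finite (A ⧸ B)] {v : V} (R : Submodule k V)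
    (h : ∀ a, ρ a v - v ∈ R) : csum ρ B v - (Nat.card (A ⧸ B) : k) • v ∈ R := by
  classical
  have := Fintype.ofFinite (A ⧸ B)
  have h1 : csum ρ B v - (Nat.card (A ⧸ B) : k) • v = ∑ q : A ⧸ B, (ρ q.out v - v) := by
    rw [csum_eq, Finset.sum_sub_distrib, Finset.sum_const, Finset.card_univ,
      Nat.card_eq_fintype_card, Nat.cast_smul_eq_nsmul]
  rw [h1]
  exact Submodule.sum_mem _ fun q _ => h _

theorem csum_comm [Finite (A ⧸ B)] (C : V →ₗ[k] V) (h : ∀ a, Commute (ρ a) C) (v : V) :
    C (csum ρ B v) = csum ρ B (C v) := by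
  classical
  have := Fintype.ofFinite (A ⧸ B)
  rw [csum_eq, csum_eq, map_sum]
  refine Finset.sum_congr rfl fun q _ => ?_
  rw [← Module.End.mul_apply, ← Module.End.mul_apply, (h _).eq]

end Average

end Pool.Agent.Y804.TV
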