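import Mathlib

/-!
Smooth and admissible representations; the Tate cohomology of a representation on which an
automorphism acts.
-/

set_option autoImplicit false

namespace Pool.Agent.Y804.TV

variable {k G V : Type*} [Field k] [Group G] [AddCommGroup V] [Module k V]

/-- A representation is smooth if every vector has an open stabiliser. -/
def IsSmooth [TopologicalSpace G] (ρ : Representation k G V) : Prop :=
  ∀ v : V, IsOpen {g : G | ρ g v = v}

/-- The space `V^K` of the vectors fixed by the subgroup `K`. -/
def fixedBy (ρ : Representation k G V) (K : Subgroup G) : Submodule k V :=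
  ⨅ g ∈ K, LinearMap.eqLocus (ρ g) LinearMap.id

/-- A representation is admissible if it is smooth and `V^K` is finite-dimensional for every
compact open subgroup `K`. -/
def IsAdmissible [TopologicalSpace G] (ρ : Representation k G V) : Prop :=
  IsSmooth ρ ∧ ∀ K : Subgroup G, IsOpen (K : Set G) → IsCompact (K : Set G) →
    FiniteDimensional k (fixedBy ρ K)

/-- The restriction of a representation to a subgroup. -/
def restrict (ρ : Representation k G V) (H : Subgroup G) : Representation k H V :=
  ρ.comp H.subtype

/-- The subgroup `G^σ`. -/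
def fixedSubgroup (σ : G ≃* G) : Subgroup G :=
  (σ : G →* G).eqLocus (MonoidHom.id G)

/-- An action of `σ` on the representation `ρ` of `G`, or in other words an extension of `ρ` to
`G ⋊ ⟨σ⟩`, where `⟨σ⟩` is cyclic of order `p`: `S` is the action of `σ`. -/
structure SigmaAction (ρ : Representation k G V) (σ : G ≃* G) (p : ℕ) where
  S : V →ₗ[k] V
  pow_eq_one : S ^ p = 1
  comm : ∀ g, S * ρ g = ρ (σ g) * S

variable {ρ : Representation k G V} {σ : G ≃* G} {p : ℕ}

/-- The norm `N = 1 + σ + ⋯ + σ^(p-1)`. -/
def SigmaAction.N (e : SigmaAction ρ σ p) : V →ₗ[k] V :=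
  ∑ i ∈ Finset.range p, e.S ^ i

theorem SigmaAction.commute_S (e : SigmaAction ρ σ p) (h : fixedSubgroup σ) :
    Commute (ρ h) e.S := by
  have h1 : σ (h : G) = h := h.2
  have h2 := e.comm (h : G)
  rw [h1] at h2
  exact h2.symm

theorem SigmaAction.commute_N (e : SigmaAction ρ σ p) (h : fixedSubgroup σ) :
    Commute (ρ h) e.N :=
  Commute.sum_right _ _ _ fun i _ => (e.commute_S h).pow_right i

theorem ker_le_comap {A B : V →ₗ[k] V} (h : Commute B A) :
    LinearMap.ker A ≤ (LinearMap.ker A).comap B := by
  intro v hv
  rw [Submodule.mem_comap, LinearMap.mem_ker]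
  rw [LinearMap.mem_ker] at hv
  have := congrArg (fun f : V →ₗ[k] V => f v) h.eq
  simp only [Module.End.mul_apply] at this
  rw [← this, hv, map_zero]

theorem range_le_comap {A B C : V →ₗ[k] V} (h : Commute B C) (hA : Commute B A) :
    (LinearMap.range C).comap (LinearMap.ker A).subtype ≤
      ((LinearMap.range C).comap (LinearMap.ker A).subtype).comap
        (B.restrict (ker_le_comap hA)) := by
  rintro ⟨v, hv⟩ ⟨w, hw⟩
  refine ⟨B w, ?_⟩
  have := congrArg (fun f : V →ₗ[k] V => f w) h.eq
  simp only [Module.End.mul_apply] at this
  rw [← this, hw]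
  rfl

/-- The subquotient `ker A / im B` for two endomorphisms `A` and `B` of a vector space: the quotient
of `ker A` by the subspace of its elements which are in the image of `B`. -/
def Subquotient (A B : V →ₗ[k] V) : Type _ :=
  LinearMap.ker A ⧸ (LinearMap.range B).comap (LinearMap.ker A).subtype

noncomputable instance (A B : V →ₗ[k] V) : AddCommGroup (Subquotient A B) :=
  (inferInstance : AddCommGroup
    (LinearMap.ker A ⧸ (LinearMap.range B).comap (LinearMap.ker A).subtype))

noncomputable instance (A B : V →ₗ[k] V) : Module k (Subquotient A B) :=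
  (inferInstance : Module k
    (LinearMap.ker A ⧸ (LinearMap.range B).comap (LinearMap.ker A).subtype))

/-- The representation on `ker A / im B`, for two endomorphisms `A` and `B` of a representation. -/
noncomputable def subquotient (ρ : Representation k G V) (A B : V →ₗ[k] V)
    (hA : ∀ g, Commute (ρ g) A) (hB : ∀ g, Commute (ρ g) B) :
    Representation k G (Subquotient A B) :=
  (ρ.subrepresentation (LinearMap.ker A) (fun g => ker_le_comap (hA g))).quotient
    _ (fun g => range_le_comap (hB g) (hA g))

theorem SigmaAction.commute_one_sub (e : SigmaAction ρ σ p) (h : fixedSubgroup σ) :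
    Commute (ρ h) (1 - e.S) :=
  (Commute.one_right _).sub_right (e.commute_S h)

/-- `T^0 = ker (1 - σ) / N V` as a representation of `G^σ`. -/
noncomputable def SigmaAction.T0 (e : SigmaAction ρ σ p) :
    Representation k (fixedSubgroup σ) (Subquotient (1 - e.S) e.N) :=
  subquotient (restrict ρ (fixedSubgroup σ)) (1 - e.S) e.N e.commute_one_sub e.commute_N

/-- `T^1 = ker N / (1 - σ) V` as a representation of `G^σ`. -/
noncomputable def SigmaAction.T1 (e : SigmaAction ρ σ p) :
    Representation k (fixedSubgroup σ) (Subquotient e.N (1 - e.S)) :=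
  subquotient (restrict ρ (fixedSubgroup σ)) e.N (1 - e.S) e.commute_N e.commute_one_sub

/-- For every continuous automorphism `σ` of `G` with `σ^p = 1`, every admissible representation of
`G` on the space `V` and every action of `σ` on it, the representations `T^0` and `T^1` of `G^σ` are
admissible. -/
def TateAdmissible (p : ℕ) (k V G : Type*) [Field k] [AddCommGroup V] [Module k V] [Group G]
    [TopologicalSpace G] : Prop :=
  ∀ σ : G ≃* G, Continuous σ → (∀ g, σ^[p] g = g) →
    ∀ (ρ : Representation k G V) (e : SigmaAction ρ σ p), IsAdmissible ρ →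
      IsAdmissible e.T0 ∧ IsAdmissible e.T1

/-- `TateAdmissible` for all closed subgroups of `GL_n(F)`, for all `n`. -/
def TateAdmissibleLinear (p : ℕ) (k V F : Type*) [Field k] [AddCommGroup V] [Module k V]
    [Field F] [TopologicalSpace F] : Prop :=
  ∀ (n : ℕ) (G : Subgroup (GL (Fin n) F)), IsClosed (G : Set (GL (Fin n) F)) →
    TateAdmissible p k V G

/-- `G` has a compact open subgroup of pro-order prime to `p`: one in which all open subgroups have
index prime to `p`. -/
def LocallyPrimeTo (p : ℕ) (G : Type*) [Group G] [TopologicalSpace G] : Prop :=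
  ∃ U : Subgroup G, IsOpen (U : Set G) ∧ IsCompact (U : Set G) ∧
    ∀ W : Subgroup G, IsOpen (W : Set G) → ¬ p ∣ W.relIndex U

end Pool.Agent.Y804.TV
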