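import Pool.Agent.Y804.TV.Comb

/-!
Profinite groups of order prime to `p` with an automorphism of order `p`.
-/

set_option autoImplicit false

namespace Pool.Agent.Y804.TV

open Finset Function

section Basis

variable {U : Type*} [Group U] [TopologicalSpace U] [IsTopologicalGroup U] [CompactSpace U]
  [TotallyDisconnectedSpace U] {p : ℕ} {σ : U →* U}

/-- A basis of open normal subgroups which are stable by `σ`. -/
theorem exists_stable (hp : 0 < p) (hσ : Continuous σ) (hσp : ∀ x, σ^[p] x = x) {O : Set U}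
    (hO : IsOpen O) (h1 : (1 : U) ∈ O) :
    ∃ W : Subgroup U, W.Normal ∧ IsOpen (W : Set U) ∧ (W : Set U) ⊆ O ∧ ∀ x ∈ W, σ x ∈ W := by
  obtain ⟨H, hH⟩ := ProfiniteGrp.exist_openNormalSubgroup_sub_open_nhds_of_one hO h1
  have hHo : IsOpen ((H : Subgroup U) : Set U) := H.isOpen'
  have hHn : (H : Subgroup U).Normal := H.isNormal'
  let it (i : ℕ) : U →* U :=
    { toFun := σ^[i]
      map_one' := iterate_map_one σ i
      map_mul' := iterate_map_mul σ i }
  let W : Subgroup U := ⨅ i : Fin p, (H : Subgroup U).comap (it i)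
  have hmem : ∀ x, x ∈ W ↔ ∀ i < p, σ^[i] x ∈ (H : Subgroup U) := by
    intro x
    simp only [W, Subgroup.mem_iInf, Subgroup.mem_comap]
    exact ⟨fun h i hi => h ⟨i, hi⟩, fun h i => h i i.2⟩
  refine ⟨W, ?_, ?_, ?_, ?_⟩
  · exact Subgroup.normal_iInf_normal fun i => hHn.comap _
  · have : (W : Set U) = ⋂ i : Fin p, (σ^[i]) ⁻¹' ((H : Subgroup U) : Set U) := by
      ext x
      rw [SetLike.mem_coe, hmem, Set.mem_iInter]
      exact ⟨fun h i => h i i.2, fun h i hi => h ⟨i, hi⟩⟩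
    rw [this]
    exact isOpen_iInter_of_finite fun i => hHo.preimage (hσ.iterate i)
  · intro x hx
    exact hH ((hmem x).1 hx 0 hp)
  · intro x hx
    rw [hmem] at hx ⊢
    intro i hi
    rw [← iterate_succ_apply]
    rcases Nat.lt_or_ge (i + 1) p with h | h
    · exact hx _ h
    · have : i + 1 = p := by omega
      rw [Nat.succ_eq_add_one, this, hσp]
      exact hx 0 hp

theorem fixed_coset (hp : p.Prime) (hσ : Continuous σ) (hσp : ∀ x, σ^[p] x = x)
    (hidx : ∀ W : Subgroup U, IsOpen (W : Set U) → ¬ p ∣ W.index) {B : Subgroup U}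
    (hB : IsOpen (B : Set U)) (hBσ : ∀ b ∈ B, σ b ∈ B) {u : U} (hu : u⁻¹ * σ u ∈ B) :
    ∃ b ∈ B, σ (u * b) = u * b := by
  classical
  let ι := {W : Subgroup U // IsOpen (W : Set U) ∧ W ≤ B ∧ ∀ w ∈ W, σ w ∈ W}
  have hι : Nonempty ι := ⟨⟨B, hB, le_rfl, hBσ⟩⟩
  let t : ι → Set U := fun W => {b | b ∈ B ∧ (u * b)⁻¹ * σ (u * b) ∈ W.1}
  have hne : ∀ W, (t W).Nonempty := by
    rintro ⟨W, hW, hWB, hWσ⟩
    have hmem : ∀ b : B, u⁻¹ * σ (u * b) ∈ B := by
      intro b
      rw [map_mul, ← mul_assoc]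
      exact B.mul_mem hu (hBσ _ b.2)
    let s : B → B := fun b => ⟨u⁻¹ * σ (u * b), hmem b⟩
    have hs : ∀ (n : ℕ) (b : B), ((s^[n] b : B) : U) = u⁻¹ * σ^[n] (u * b) := by
      intro n
      induction n with
      | zero => intro b; simp
      | succ n ih =>
        intro b
        rw [iterate_succ_apply, ih]
        change u⁻¹ * σ^[n] (u * (u⁻¹ * σ (u * b))) = _
        rw [mul_inv_cancel_left, iterate_succ_apply]
    let τ : B ⧸ W.subgroupOf B → B ⧸ W.subgroupOf B := Quotient.map' s (by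
      intro b c hbc
      rw [QuotientGroup.leftRel_apply, Subgroup.mem_subgroupOf] at hbc ⊢
      have : (((s b)⁻¹ * s c : B) : U) = σ (((b⁻¹ * c : B)) : U) := by
        simp only [s, Subgroup.coe_mul, InvMemClass.coe_inv, map_mul, map_inv]
        group
      rw [this]
      exact hWσ _ hbc)
    have hτ : ∀ (n : ℕ) (b : B), τ^[n] (QuotientGroup.mk b) = QuotientGroup.mk (s^[n] b) := by
      intro n
      induction n with
      | zero => intro b; rfl
      | succ n ih =>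
        intro b
        rw [iterate_succ_apply, iterate_succ_apply, ← ih]
        rfl
    have hτp : ∀ x, τ^[p] x = x := by
      intro x
      induction x using QuotientGroup.induction_on with
      | H b =>
        rw [hτ]
        congr 1
        apply Subtype.ext
        rw [hs, hσp, inv_mul_cancel_left]
    have hfi : W.FiniteIndex := by
      have : Finite (U ⧸ W) := W.quotient_finite_of_isOpen hW
      exact Subgroup.finiteIndex_of_finite_quotient
    have hcard : ¬ p ∣ Nat.card (B ⧸ W.subgroupOf B) := by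
      intro h
      apply hidx W hW
      rw [← Subgroup.relIndex_mul_index hWB]
      exact Dvd.dvd.mul_right h _
    obtain ⟨x, hx⟩ := exists_fixed hp hτp hcard
    induction x using QuotientGroup.induction_on with
    | H b =>
      refine ⟨b, b.2, ?_⟩
      have h1 : (QuotientGroup.mk (s b) : B ⧸ W.subgroupOf B) = QuotientGroup.mk b := hx
      rw [eq_comm, QuotientGroup.eq, Subgroup.mem_subgroupOf] at h1
      have h2 : ((b⁻¹ * s b : B) : U) = (u * b)⁻¹ * σ (u * b) := by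
        simp only [s, Subgroup.coe_mul, InvMemClass.coe_inv]
        group
      rw [h2] at h1
      exact h1
  have hcl : ∀ W, IsClosed (t W) := by
    rintro ⟨W, hW, hWB, hWσ⟩
    have h1 : IsClosed (B : Set U) := B.isClosed_of_isOpen hB
    have h2 : IsClosed (W : Set U) := W.isClosed_of_isOpen hW
    refine h1.inter (h2.preimage ?_)
    exact ((continuous_const.mul continuous_id).inv).mul
      (hσ.comp (continuous_const.mul continuous_id))
  have hdir : Directed (· ⊇ ·) t := by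
    rintro ⟨W, hW, hWB, hWσ⟩ ⟨W', hW', hWB', hWσ'⟩
    refine ⟨⟨W ⊓ W', hW.inter hW', inf_le_left.trans hWB,
      fun w hw => ⟨hWσ w hw.1, hWσ' w hw.2⟩⟩, ?_, ?_⟩
    · exact fun x hx => ⟨hx.1, hx.2.1⟩
    · exact fun x hx => ⟨hx.1, hx.2.2⟩
  obtain ⟨b, hb⟩ := IsCompact.nonempty_iInter_of_directed_nonempty_isCompact_isClosed t hdir hne
    (fun W => (hcl W).isCompact) hcl
  rw [Set.mem_iInter] at hb
  refine ⟨b, (hb ⟨B, hB, le_rfl, hBσ⟩).1, ?_⟩
  by_contra hne1
  have hO : IsOpen ({(u * b)⁻¹ * σ (u * b)}ᶜ ∩ (B : Set U)) := (isOpen_compl_singleton).inter hB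
  have h1O : (1 : U) ∈ ({(u * b)⁻¹ * σ (u * b)}ᶜ ∩ (B : Set U)) := by
    refine ⟨?_, B.one_mem⟩
    intro h
    rw [Set.mem_singleton_iff] at h
    exact hne1 ((inv_mul_eq_one.1 h.symm).symm)
  obtain ⟨W, _, hWo, hWO, hWσ⟩ := exists_stable hp.pos hσ hσp hO h1O
  exact (hWO (hb ⟨W, hWo, fun x hx => (hWO hx).2, hWσ⟩).2).1 rfl

end Basis

section Core

variable {k U V : Type*} [Field k] [Group U] [AddCommGroup V] [Module k V] {p : ℕ}
  {ρ : Representation k U V} {σ : U →* U} {S : V →ₗ[k] V}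

theorem S_pow_apply (hS : ∀ u, S * ρ u = ρ (σ u) * S) (i : ℕ) (u : U) (v : V) :
    (S ^ i) (ρ u v) = ρ (σ^[i] u) ((S ^ i) v) := by
  induction i generalizing u v with
  | zero => simp
  | succ i ih =>
    rw [pow_succ, Module.End.mul_apply, Module.End.mul_apply, iterate_succ_apply, ← ih]
    have := congrArg (fun f : V →ₗ[k] V => f v) (hS u)
    simp only [Module.End.mul_apply] at this
    rw [this]

theorem S_fixed (hp : 0 < p) (hS : ∀ u, S * ρ u = ρ (σ u) * S) (hσp : ∀ x, σ^[p] x = x)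
    {B : Subgroup U} (hBσ : ∀ b ∈ B, σ b ∈ B) {v : V} (hv : ∀ b ∈ B, ρ b v = v) :
    ∀ b ∈ B, ρ b (S v) = S v := by
  intro b hb
  have h1 : ∀ n, σ^[n] b ∈ B := by
    intro n
    induction n with
    | zero => exact hb
    | succ n ih => rw [iterate_succ_apply']; exact hBσ _ ih
  have h2 : σ (σ^[p - 1] b) = b := by
    rw [← iterate_succ_apply' σ (p - 1) b]
    have : (p - 1).succ = p := by omega
    rw [this, hσp]
  have h3 := congrArg (fun f : V →ₗ[k] V => f v) (hS (σ^[p - 1] b))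
  simp only [Module.End.mul_apply] at h3
  rw [h2, hv _ (h1 _)] at h3
  exact h3.symm

/-- The map induced by `σ` on cosets. -/
def cmap (σ : U →* U) (B : Subgroup U) (hBσ : ∀ b ∈ B, σ b ∈ B) : U ⧸ B → U ⧸ B :=
  Quotient.map' σ (by
    intro b c hbc
    rw [QuotientGroup.leftRel_apply] at hbc ⊢
    rw [← map_inv, ← map_mul]
    exact hBσ _ hbc)

theorem cmap_mk {B : Subgroup U} (hBσ : ∀ b ∈ B, σ b ∈ B) (u : U) :
    cmap σ B hBσ (QuotientGroup.mk u) = QuotientGroup.mk (σ u) := rfl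

theorem cmap_iterate {B : Subgroup U} (hBσ : ∀ b ∈ B, σ b ∈ B) (n : ℕ) (u : U) :
    (cmap σ B hBσ)^[n] (QuotientGroup.mk u) = QuotientGroup.mk (σ^[n] u) := by
  induction n generalizing u with
  | zero => rfl
  | succ n ih => rw [iterate_succ_apply, iterate_succ_apply, cmap_mk, ih]

theorem cmap_p {B : Subgroup U} (hBσ : ∀ b ∈ B, σ b ∈ B) (hσp : ∀ x, σ^[p] x = x) (x : U ⧸ B) :
    (cmap σ B hBσ)^[p] x = x := by
  induction x using QuotientGroup.induction_on with
  | H u => rw [cmap_iterate, hσp]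

theorem cmap_bij {B : Subgroup U} (hp : 0 < p) (hBσ : ∀ b ∈ B, σ b ∈ B)
    (hσp : ∀ x, σ^[p] x = x) : Bijective (cmap σ B hBσ) := by
  have h1 : ((cmap σ B hBσ)^[p]) = id := funext fun x => cmap_p hBσ hσp x
  obtain ⟨q, rfl⟩ : ∃ q, p = q + 1 := ⟨p - 1, by omega⟩
  constructor
  · rw [iterate_succ] at h1
    exact Injective.of_comp (f := (cmap σ B hBσ)^[q]) (h1 ▸ injective_id)
  · rw [iterate_succ'] at h1
    exact Surjective.of_comp (g := (cmap σ B hBσ)^[q]) (h1 ▸ surjective_id)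

theorem S_csum (hp : 0 < p) (hS : ∀ u, S * ρ u = ρ (σ u) * S) (hσp : ∀ x, σ^[p] x = x)
    {B : Subgroup U} [Finite (U ⧸ B)] (hBσ : ∀ b ∈ B, σ b ∈ B) {v : V}
    (hv : ∀ b ∈ B, ρ b v = v) : S (csum ρ B v) = csum ρ B (S v) := by
  classical
  have := Fintype.ofFinite (U ⧸ B)
  rw [csum_eq, csum_eq, map_sum]
  refine Fintype.sum_bijective (cmap σ B hBσ) (cmap_bij hp hBσ hσp) _ _ fun q => ?_
  have h3 := congrArg (fun f : V →ₗ[k] V => f v) (hS q.out)
  simp only [Module.End.mul_apply] at h3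
  rw [h3]
  refine (out_apply' (S_fixed hp hS hσp hBσ hv) ?_).symm
  conv_rhs => rw [← QuotientGroup.out_eq' q]
  rfl

theorem pow_S_sub_mem (i : ℕ) (w : V) : (S ^ i) w - w ∈ LinearMap.range (1 - S) := by
  induction i with
  | zero => simp
  | succ i ih =>
    have h1 : (S ^ (i + 1)) w - w = ((S ^ i) w - w) - (1 - S) ((S ^ i) w) := by
      rw [pow_succ', Module.End.mul_apply, LinearMap.sub_apply, Module.End.one_apply]
      abel
    rw [h1]
    exact Submodule.sub_mem _ ih ⟨_, rfl⟩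

theorem csum_core (hp : p.Prime) (hσp : ∀ x, σ^[p] x = x)
    {B : Subgroup U} [Finite (U ⧸ B)] (hBσ : ∀ b ∈ B, σ b ∈ B)
    (hfix : ∀ u, u⁻¹ * σ u ∈ B → u ∈ B) {v : V} (hv : ∀ b ∈ B, ρ b v = v) (R : Submodule k V)
    (hR : ∀ u, ∑ i ∈ range p, ρ (σ^[i] u) v ∈ R) : csum ρ B v - v ∈ R := by
  classical
  have := Fintype.ofFinite (U ⧸ B)
  have h1 := sum_mem_of_no_fixed (X := U ⧸ B) (M := V) hp (cmap_p hBσ hσp)
    (fun q => ρ q.out v) R.toAddSubgroup ?_ (Finset.univ.erase (QuotientGroup.mk 1)) ?_ ?_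
  · rw [csum_eq, ← Finset.add_sum_erase _ _ (Finset.mem_univ (QuotientGroup.mk 1 : U ⧸ B)),
      out_apply hv, map_one, Module.End.one_apply, add_sub_cancel_left]
    exact h1
  · intro q
    induction q using QuotientGroup.induction_on with
    | H u =>
      have h2 : ∑ i ∈ range p, ρ ((cmap σ B hBσ)^[i] (QuotientGroup.mk u)).out v =
          ∑ i ∈ range p, ρ (σ^[i] u) v := by
        refine Finset.sum_congr rfl fun i _ => ?_
        rw [cmap_iterate, out_apply hv]
      rw [h2]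
      exact hR u
  · intro q hq
    rw [Finset.mem_erase] at hq ⊢
    refine ⟨fun h => hq.1 ?_, Finset.mem_univ _⟩
    have h2 : cmap σ B hBσ (QuotientGroup.mk 1) = QuotientGroup.mk 1 := by
      rw [cmap_mk, map_one]
    exact (cmap_bij hp.pos hBσ hσp).1 (h.trans h2.symm)
  · intro q hq h
    rw [Finset.mem_erase] at hq
    apply hq.1
    induction q using QuotientGroup.induction_on with
    | H u =>
      rw [cmap_mk, eq_comm, QuotientGroup.eq] at h
      rw [eq_comm, QuotientGroup.eq]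
      simpa using hfix u h

/-- The two cases needed: `T^0`. -/
theorem csum_core0 (hp : p.Prime) (hS : ∀ u, S * ρ u = ρ (σ u) * S) (hσp : ∀ x, σ^[p] x = x)
    {B : Subgroup U} [Finite (U ⧸ B)] (hBσ : ∀ b ∈ B, σ b ∈ B)
    (hfix : ∀ u, u⁻¹ * σ u ∈ B → u ∈ B) {v : V} (hv : ∀ b ∈ B, ρ b v = v) (hSv : S v = v) :
    csum ρ B v - v ∈ LinearMap.range (∑ i ∈ range p, S ^ i) := by
  refine csum_core hp hσp hBσ hfix hv _ fun u => ?_
  have h1 : ∀ i, (S ^ i) v = v := by
    intro i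
    induction i with
    | zero => simp
    | succ i ih => rw [pow_succ, Module.End.mul_apply, hSv, ih]
  refine ⟨ρ u v, ?_⟩
  rw [LinearMap.sum_apply]
  refine Finset.sum_congr rfl fun i _ => ?_
  rw [S_pow_apply hS, h1]

/-- The two cases needed: `T^1`. -/
theorem csum_core1 (hp : p.Prime) (hS : ∀ u, S * ρ u = ρ (σ u) * S) (hSp : S ^ p = 1)
    (hσp : ∀ x, σ^[p] x = x)
    {B : Subgroup U} [Finite (U ⧸ B)] (hBσ : ∀ b ∈ B, σ b ∈ B)
    (hfix : ∀ u, u⁻¹ * σ u ∈ B → u ∈ B) {v : V} (hv : ∀ b ∈ B, ρ b v = v)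
    (hNv : (∑ i ∈ range p, S ^ i) v = 0) :
    csum ρ B v - v ∈ LinearMap.range (1 - S) := by
  refine csum_core hp hσp hBσ hfix hv _ fun u => ?_
  have h1 : ∀ i ∈ range p, ρ (σ^[i] u) v = (S ^ i) (ρ u ((S ^ (p - i)) v)) := by
    intro i hi
    rw [Finset.mem_range] at hi
    have h2 : (S ^ i) ((S ^ (p - i)) v) = v := by
      rw [← Module.End.mul_apply, ← pow_add, Nat.add_sub_cancel' hi.le, hSp,
        Module.End.one_apply]
    rw [S_pow_apply hS, h2]
  rw [Finset.sum_congr rfl h1]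
  have h2 : ∑ i ∈ range p, (S ^ (p - i)) v = 0 := by
    have h4 : ∑ i ∈ range p, (S ^ (p - i)) v = ∑ i ∈ range p, (S ^ (i + 1)) v := by
      rw [← Finset.sum_range_reflect (fun i => (S ^ (i + 1)) v)]
      refine Finset.sum_congr rfl fun i hi => ?_
      rw [Finset.mem_range] at hi
      congr 2
      omega
    rw [h4, ← hNv, LinearMap.sum_apply]
    obtain ⟨q, hq⟩ : ∃ q, p = q + 1 := ⟨p - 1, by have := hp.pos; omega⟩
    subst hq
    rw [Finset.sum_range_succ, Finset.sum_range_succ', hSp, pow_zero]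
  have h3 : ∑ i ∈ range p, (S ^ i) (ρ u ((S ^ (p - i)) v)) =
      ∑ i ∈ range p, ((S ^ i) (ρ u ((S ^ (p - i)) v)) - ρ u ((S ^ (p - i)) v)) := by
    rw [Finset.sum_sub_distrib, ← map_sum, h2, map_zero, sub_zero]
  rw [h3]
  exact Submodule.sum_mem _ fun i _ => pow_S_sub_mem _ _

end Core

end Pool.Agent.Y804.TV
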